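import Pool.Agent.H818R2.Kiss4

/-! Spherical codes: the angle can be increased at a small cost (helper26). -/

set_option autoImplicit false

open MeasureTheory Metric Filter Set Pool.Agent.H818R2
open scoped InnerProductSpace Topology

namespace Pool.Agent.U26.KP

abbrev E (n : ℕ) : Type := EuclideanSpace ℝ (Fin n)

theorem pigeon {α β : Type*} [DecidableEq β] (s : Finset α) (t : Finset β) (f : α → β)
    (hf : ∀ x ∈ s, f x ∈ t) (hs : s.Nonempty) :
    ∃ y ∈ t, s.card ≤ t.card * (s.filter (fun x => f x = y)).card := by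
  obtain ⟨x0, hx0⟩ := hs
  obtain ⟨y, hy, hmax⟩ := Finset.exists_max_image t (fun y => (s.filter (fun x => f x = y)).card)
    ⟨f x0, hf x0 hx0⟩
  refine ⟨y, hy, ?_⟩
  rw [Finset.card_eq_sum_card_fiberwise (f := f) (s := s) (t := t) (fun x hx => hf x hx)]
  calc ∑ b ∈ t, (s.filter (fun x => f x = b)).card
      ≤ ∑ _b ∈ t, (s.filter (fun x => f x = y)).card := Finset.sum_le_sum hmax
    _ = _ := by rw [Finset.sum_const, smul_eq_mul]

/-- covering a finite subset of the unit ball by few small balls -/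
theorem cover {F : Type*} [NormedAddCommGroup F] [InnerProductSpace ℝ F] [FiniteDimensional ℝ F]
    [MeasurableSpace F] [BorelSpace F] (R : Finset F) (hR : ∀ x ∈ R, ‖x‖ ≤ 1) {ε : ℝ}
    (hε : 0 < ε) : ∃ N : Finset F, N ⊆ R ∧ (∀ x ∈ R, ∃ z ∈ N, dist x z ≤ ε) ∧
      (N.card : ℝ) ≤ (2 / ε + 1) ^ Module.finrank ℝ F := by
  classical
  set 𝓕 := R.powerset.filter (fun N => Sep ε N) with h𝓕
  have hne : 𝓕.Nonempty := ⟨∅, by
    rw [h𝓕, Finset.mem_filter]
    exact ⟨Finset.empty_mem_powerset _, fun x hx => absurd hx (by simp)⟩⟩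
  obtain ⟨N, hN, hmax⟩ := Finset.exists_max_image 𝓕 Finset.card hne
  rw [h𝓕, Finset.mem_filter, Finset.mem_powerset] at hN
  refine ⟨N, hN.1, ?_, ?_⟩
  · intro x hx
    by_contra hcon
    push Not at hcon
    have hxN : x ∉ N := fun h => by
      have := hcon x h
      rw [dist_self] at this
      linarith
    have h1 : insert x N ∈ 𝓕 := by
      rw [h𝓕, Finset.mem_filter, Finset.mem_powerset]
      refine ⟨Finset.insert_subset hx hN.1, ?_⟩
      intro u hu v hv huv
      rw [Finset.mem_insert] at hu hv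
      rcases hu with rfl | hu <;> rcases hv with rfl | hv
      · exact absurd rfl huv
      · exact (hcon v hv).le
      · rw [dist_comm]; exact (hcon u hu).le
      · exact hN.2 u hu v hv huv
    have h2 := hmax _ h1
    rw [Finset.card_insert_of_notMem hxN] at h2
    omega
  · have h1 : Sep 2 (N.image (fun x => (2 / ε) • x)) := by
      intro u hu v hv huv
      obtain ⟨x, hx, rfl⟩ := Finset.mem_image.1 hu
      obtain ⟨y, hy, rfl⟩ := Finset.mem_image.1 hv
      have hxy : x ≠ y := fun h => huv (by rw [h])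
      rw [dist_smul₀, Real.norm_of_nonneg (by positivity)]
      have := hN.2 x hx y hy hxy
      calc (2 : ℝ) = 2 / ε * ε := by field_simp
        _ ≤ _ := mul_le_mul_of_nonneg_left this (by positivity)
    have h2 := card_le h1 (c := 0) (R := 2 / ε) (by positivity) (by
      intro u hu
      obtain ⟨x, hx, rfl⟩ := Finset.mem_image.1 hu
      rw [dist_zero_right, norm_smul, Real.norm_of_nonneg (by positivity)]
      have := hR x (hN.1 hx)
      calc 2 / ε * ‖x‖ ≤ 2 / ε * 1 := mul_le_mul_of_nonneg_left this (by positivity)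
        _ = _ := mul_one _)
    rwa [Finset.card_image_of_injective _ (smul_right_injective _ (by positivity))] at h2

/-- the block of a coordinate -/
def blk (B : ℕ) {n : ℕ} (i : Fin n) : ℕ := (i : ℕ) % B

/-- the restriction of a vector to a block -/
noncomputable def res (B : ℕ) {n : ℕ} (j : ℕ) (x : E n) :
    EuclideanSpace ℝ {i : Fin n // blk B i = j} := WithLp.toLp 2 (fun i => x i.1)

/-- the vector with the coordinates in a block replaced by `0` -/
noncomputable def zr (B : ℕ) {n : ℕ} (j : ℕ) (x : E n) : E n :=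
  WithLp.toLp 2 (fun i => if blk B i = j then 0 else x i)

theorem block_card {B n : ℕ} (j : ℕ) :
    Fintype.card {i : Fin n // blk B i = j} ≤ n / B + 1 := by
  rw [← Fintype.card_fin (n / B + 1)]
  refine Fintype.card_le_of_injective (fun i => ⟨(i.1 : ℕ) / B, ?_⟩) ?_
  · exact Nat.lt_succ_of_le (Nat.div_le_div_right i.1.2.le)
  · intro i i' h
    have h1 : (i.1 : ℕ) / B = (i'.1 : ℕ) / B := congrArg Fin.val h
    have h2 : (i.1 : ℕ) % B = (i'.1 : ℕ) % B := i.2.trans i'.2.symm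
    apply Subtype.ext
    apply Fin.ext
    rw [← Nat.div_add_mod (i.1 : ℕ) B, ← Nat.div_add_mod (i'.1 : ℕ) B, h1, h2]

theorem inner_res_zr {B n : ℕ} (j : ℕ) (x y : E n) :
    ⟪x, y⟫_ℝ = ⟪res B j x, res B j y⟫_ℝ + ⟪zr B j x, zr B j y⟫_ℝ := by
  classical
  simp only [PiLp.inner_apply, res, zr]
  rw [← Finset.sum_filter_add_sum_filter_not Finset.univ (fun i : Fin n => blk B i = j)]
  congr 1
  · rw [← Finset.sum_subtype_of_mem (p := fun i : Fin n => blk B i = j)
      (f := fun i => ⟪x i, y i⟫_ℝ) (fun i hi => (Finset.mem_filter.1 hi).2)]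
    apply Finset.sum_congr
    · ext i; simp [i.2]
    · intro i _; rfl
  · rw [← Finset.sum_filter_add_sum_filter_not Finset.univ (fun i : Fin n => blk B i = j)
      (f := fun i => ⟪if blk B i = j then (0 : ℝ) else x i, if blk B i = j then (0 : ℝ) else y i⟫_ℝ)]
    rw [Finset.sum_eq_zero (s := Finset.univ.filter (fun i : Fin n => blk B i = j)), zero_add]
    · refine Finset.sum_congr rfl fun i hi => ?_
      rw [if_neg (Finset.mem_filter.1 hi).2, if_neg (Finset.mem_filter.1 hi).2]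
    · intro i hi
      rw [if_pos (Finset.mem_filter.1 hi).2]
      simp

theorem norm_res_zr {B n : ℕ} (j : ℕ) (x : E n) :
    ‖x‖ ^ 2 = ‖res B j x‖ ^ 2 + ‖zr B j x‖ ^ 2 := by
  rw [← real_inner_self_eq_norm_sq, ← real_inner_self_eq_norm_sq, ← real_inner_self_eq_norm_sq]
  exact inner_res_zr j x x

theorem exists_block {B n : ℕ} (hB : 0 < B) (x : E n) (hx : ‖x‖ = 1) :
    ∃ j ∈ Finset.range B, 1 / (B : ℝ) ≤ ‖res B j x‖ ^ 2 := by
  by_contra hcon
  push Not at hcon
  have h1 : ∑ j ∈ Finset.range B, ‖res B j x‖ ^ 2 = 1 := by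
    have h2 : ∀ j, ‖res B j x‖ ^ 2 = ∑ i ∈ Finset.univ.filter (fun i : Fin n => blk B i = j),
        x i ^ 2 := by
      intro j
      rw [EuclideanSpace.norm_eq, Real.sq_sqrt (Finset.sum_nonneg fun i _ => by positivity)]
      rw [← Finset.sum_subtype_of_mem (p := fun i : Fin n => blk B i = j)
        (f := fun i => x i ^ 2) (fun i hi => (Finset.mem_filter.1 hi).2)]
      apply Finset.sum_congr
      · ext i; simp [i.2]
      · intro i _; rw [Real.norm_eq_abs, sq_abs]; rfl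
    simp only [h2]
    rw [Finset.sum_fiberwise_of_maps_to (g := fun i : Fin n => blk B i)
      (fun i _ => Finset.mem_range.2 (Nat.mod_lt _ hB))]
    have : ‖x‖ ^ 2 = 1 := by rw [hx]; norm_num
    rw [EuclideanSpace.norm_eq, Real.sq_sqrt (Finset.sum_nonneg fun i _ => by positivity)] at this
    rw [← this]
    exact Finset.sum_congr rfl fun i _ => by rw [Real.norm_eq_abs, sq_abs]
  have hB0 : (0 : ℝ) < B := by exact_mod_cast hB
  have h2 : ∑ j ∈ Finset.range B, ‖res B j x‖ ^ 2 < ∑ _j ∈ Finset.range B, 1 / (B : ℝ) :=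
    Finset.sum_lt_sum_of_nonempty ⟨0, Finset.mem_range.2 hB⟩ hcon
  rw [h1, Finset.sum_const, Finset.card_range, nsmul_eq_mul, mul_one_div_cancel hB0.ne'] at h2
  exact lt_irrefl _ h2

/-- the new inner products -/
theorem new_inner {c ε b v a u u' : ℝ} (hc : c < 1) (hc1 : -1 ≤ c) (hb : 0 < b) (hb1 : b ≤ 1 / 2)
    (hε : ε = (1 - c) * b / 8) (hu : 0 ≤ u) (hu' : 0 ≤ u') (hub : u ^ 2 ≤ 1 - b)
    (hub' : u' ^ 2 ≤ 1 - b) (huu : |u ^ 2 - u' ^ 2| ≤ 4 * ε)
    (ha : a = c - (1 - (u ^ 2 + u' ^ 2) / 2) + 2 * ε ^ 2) (hv : v ≤ a) :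
    v ≤ (1 - (1 - c) * (1 - b / 2) / (1 - b)) * (u * u') := by
  have hε0 : 0 < ε := by rw [hε]; have : 0 < 1 - c := by linarith
                         positivity
  have h1b : 0 < 1 - b := by linarith
  have h1c : 0 < 1 - c := by linarith
  have h1 : (u - u') ^ 2 ≤ 4 * ε := by
    have h2 : |u - u'| ≤ u + u' := by rw [abs_le]; constructor <;> linarith
    calc (u - u') ^ 2 = |u - u'| * |u - u'| := by rw [← sq, sq_abs]
      _ ≤ |u - u'| * (u + u') := mul_le_mul_of_nonneg_left h2 (abs_nonneg _)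
      _ = |u ^ 2 - u' ^ 2| := by
          rw [← abs_of_nonneg (show 0 ≤ u + u' by linarith), ← abs_mul]
          congr 1
          ring
      _ ≤ _ := huu
  have h3 : u * u' ≤ 1 - b := by nlinarith [sq_nonneg (u - u')]
  have h4 : (1 - c) * (1 - b / 2) / (1 - b) * (u * u') ≤ (1 - c) * (1 - b / 2) := by
    rw [div_mul_eq_mul_div, div_le_iff₀ h1b]
    exact mul_le_mul_of_nonneg_left h3 (mul_nonneg h1c.le (by linarith))
  have h6 : ε ≤ 1 := by rw [hε]; nlinarith
  have h5 : ε ^ 2 ≤ ε := by nlinarith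
  have h7 : 4 * ε = (1 - c) * b / 2 := by rw [hε]; ring
  nlinarith

/-- **The angle gain.** -/
theorem gain {n B : ℕ} (hB : 2 ≤ B) {c : ℝ} (hc : c < 1) (hc1 : -1 ≤ c) (P : Finset (E n))
    (hP : ∀ x ∈ P, ‖x‖ = 1) (hP2 : ∀ x ∈ P, ∀ y ∈ P, x ≠ y → ⟪x, y⟫_ℝ ≤ c) :
    ∃ Q : Finset (E n), (∀ x ∈ Q, ‖x‖ = 1) ∧
      (∀ x ∈ Q, ∀ y ∈ Q, x ≠ y →
        ⟪x, y⟫_ℝ ≤ 1 - (1 - c) * (1 - 1 / (B : ℝ) / 2) / (1 - 1 / (B : ℝ))) ∧
      (P.card : ℝ) ≤ B * (2 / ((1 - c) * (1 / (B : ℝ)) / 8) + 1) ^ (n / B + 1) * Q.card := by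
  classical
  rcases P.eq_empty_or_nonempty with rfl | hne
  · exact ⟨∅, by simp, by simp, by simp⟩
  have hB0 : (0 : ℝ) < B := by exact_mod_cast (by omega : 0 < B)
  have hB2 : (2 : ℝ) ≤ B := by exact_mod_cast hB
  set b : ℝ := 1 / B with hb
  have hb0 : 0 < b := by positivity
  have hb1 : b ≤ 1 / 2 := by rw [hb]; exact one_div_le_one_div_of_le (by norm_num) hB2
  set ε : ℝ := (1 - c) * b / 8 with hε
  have h1c : 0 < 1 - c := by linarith
  have hε0 : 0 < ε := by positivity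
  have hε1 : ε ≤ 1 / 8 := by rw [hε]; nlinarith
  -- a block
  have hblk : ∀ x : E n, ∃ j, x ∈ P → j ∈ Finset.range B ∧ b ≤ ‖res B j x‖ ^ 2 := by
    intro x
    by_cases hx : x ∈ P
    · obtain ⟨j, hj1, hj2⟩ := exists_block (B := B) (by omega) x (hP x hx)
      exact ⟨j, fun _ => ⟨hj1, hj2⟩⟩
    · exact ⟨0, fun h => absurd h hx⟩
  choose f hf using hblk
  obtain ⟨j, hj, hcard1⟩ := pigeon P (Finset.range B) f (fun x hx => (hf x hx).1) hne
  rw [Finset.card_range] at hcard1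
  set P1 := P.filter (fun x => f x = j) with hP1
  have hP1ne : P1.Nonempty := by
    rw [← Finset.card_pos]
    rcases Nat.eq_zero_or_pos P1.card with h | h
    · rw [h, mul_zero] at hcard1
      have := Finset.card_pos.2 hne
      omega
    · exact h
  have hP1u : ∀ x ∈ P1, ‖x‖ = 1 := fun x hx => hP x (Finset.mem_filter.1 hx).1
  have hP1b : ∀ x ∈ P1, b ≤ ‖res B j x‖ ^ 2 := by
    intro x hx
    obtain ⟨h1, h2⟩ := Finset.mem_filter.1 hx
    rw [← h2]
    exact (hf x h1).2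
  have hsum : ∀ x ∈ P1, ‖res B j x‖ ^ 2 + ‖zr B j x‖ ^ 2 = 1 := by
    intro x hx
    rw [← norm_res_zr, hP1u x hx]; norm_num
  have hres1 : ∀ x ∈ P1, ‖res B j x‖ ≤ 1 := by
    intro x hx
    have := hsum x hx
    nlinarith [sq_nonneg ‖zr B j x‖, norm_nonneg (res B j x)]
  -- the covering
  obtain ⟨N, hN1, hN2, hN3⟩ := cover (P1.image (res B j)) (by
    intro y hy
    obtain ⟨x, hx, rfl⟩ := Finset.mem_image.1 hy
    exact hres1 x hx) hε0
  have hnear : ∀ x : E n, ∃ z, x ∈ P1 → z ∈ N ∧ dist (res B j x) z ≤ ε := by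
    intro x
    by_cases hx : x ∈ P1
    · obtain ⟨z, hz1, hz2⟩ := hN2 _ (Finset.mem_image_of_mem _ hx)
      exact ⟨z, fun _ => ⟨hz1, hz2⟩⟩
    · exact ⟨0, fun h => absurd h hx⟩
  choose g hg using hnear
  obtain ⟨z, hz, hcard2⟩ := pigeon P1 N g (fun x hx => (hg x hx).1) hP1ne
  set P2 := P1.filter (fun x => g x = z) with hP2'
  have hP2d : ∀ x ∈ P2, ∀ y ∈ P2, dist (res B j x) (res B j y) ≤ 2 * ε := by
    intro x hx y hy
    obtain ⟨h1, h2⟩ := Finset.mem_filter.1 hx
    obtain ⟨h3, h4⟩ := Finset.mem_filter.1 hy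
    have h5 := (hg x h1).2
    have h6 := (hg y h3).2
    rw [h2] at h5
    rw [h4] at h6
    rw [dist_comm] at h6
    linarith [dist_triangle (res B j x) z (res B j y)]
  have hfin : (N.card : ℝ) ≤ (2 / ε + 1) ^ (n / B + 1) := by
    refine hN3.trans ?_
    have h1 : (1 : ℝ) ≤ 2 / ε + 1 := by
      have : 0 < 2 / ε := by positivity
      linarith
    apply pow_le_pow_right₀ h1
    rw [finrank_euclideanSpace]
    exact block_card j
  have hcard : (P.card : ℝ) ≤ B * (2 / ε + 1) ^ (n / B + 1) * P2.card := by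
    have h1 : (P.card : ℝ) ≤ B * P1.card := by exact_mod_cast hcard1
    have h2 : (P1.card : ℝ) ≤ N.card * P2.card := by exact_mod_cast hcard2
    calc (P.card : ℝ) ≤ B * P1.card := h1
      _ ≤ B * (N.card * P2.card) := mul_le_mul_of_nonneg_left h2 hB0.le
      _ ≤ B * ((2 / ε + 1) ^ (n / B + 1) * P2.card) := by
          apply mul_le_mul_of_nonneg_left _ hB0.le
          exact mul_le_mul_of_nonneg_right hfin (Nat.cast_nonneg _)
      _ = _ := by ring
  -- at most one point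
  rcases Nat.lt_or_ge P2.card 2 with hsmall | hbig
  · refine ⟨P2, fun x hx => hP1u x (Finset.mem_filter.1 hx).1, ?_, hcard⟩
    intro x hx y hy hxy
    exact absurd (Finset.card_le_one.1 (by omega) x hx y hy) hxy
  -- inner products of the projections
  have key : ∀ x ∈ P2, ∀ y ∈ P2, x ≠ y →
      |‖zr B j x‖ ^ 2 - ‖zr B j y‖ ^ 2| ≤ 4 * ε ∧ ⟪zr B j x, zr B j y⟫_ℝ ≤
        c - (1 - (‖zr B j x‖ ^ 2 + ‖zr B j y‖ ^ 2) / 2) + 2 * ε ^ 2 := by
    intro x hx y hy hxy
    have hx1 := (Finset.mem_filter.1 hx).1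
    have hy1 := (Finset.mem_filter.1 hy).1
    have h1 := hsum x hx1
    have h2 := hsum y hy1
    have h3 := hP2d x hx y hy
    rw [dist_eq_norm] at h3
    have h4 := norm_sub_sq_real (res B j x) (res B j y)
    have h5 : ‖res B j x - res B j y‖ ^ 2 ≤ (2 * ε) ^ 2 :=
      pow_le_pow_left₀ (norm_nonneg _) h3 2
    have h6 := hP2 x (Finset.mem_filter.1 hx1).1 y (Finset.mem_filter.1 hy1).1 hxy
    rw [inner_res_zr (B := B) j x y] at h6
    constructor
    · have h7 : |‖res B j x‖ - ‖res B j y‖| ≤ 2 * ε := (abs_norm_sub_norm_le _ _).trans h3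
      have h8 := hres1 x hx1
      have h9 := hres1 y hy1
      have e : ‖zr B j x‖ ^ 2 - ‖zr B j y‖ ^ 2 =
          -((‖res B j x‖ - ‖res B j y‖) * (‖res B j x‖ + ‖res B j y‖)) := by linarith
      rw [e, abs_neg, abs_mul, abs_of_nonneg (show 0 ≤ ‖res B j x‖ + ‖res B j y‖ by positivity)]
      calc |‖res B j x‖ - ‖res B j y‖| * (‖res B j x‖ + ‖res B j y‖)
          ≤ 2 * ε * 2 := mul_le_mul h7 (by linarith) (by positivity) (by positivity)
        _ = _ := by ring
    · nlinarith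
  have hub : ∀ x ∈ P2, ‖zr B j x‖ ^ 2 ≤ 1 - b := by
    intro x hx
    have hx1 := (Finset.mem_filter.1 hx).1
    linarith [hsum x hx1, hP1b x hx1]
  have hpos : ∀ x ∈ P2, 0 < ‖zr B j x‖ := by
    intro x hx
    by_contra hcon
    have h0 : ‖zr B j x‖ = 0 := le_antisymm (not_lt.1 hcon) (norm_nonneg _)
    obtain ⟨y, hy, hyx⟩ := Finset.exists_mem_ne (by omega : 1 < P2.card) x
    obtain ⟨h1, h2⟩ := key x hx y hy hyx.symm
    have h3 : zr B j x = 0 := norm_eq_zero.1 h0
    rw [h3, inner_zero_left, norm_zero] at h2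
    rw [h0] at h1
    have h4 := (abs_le.1 h1).1
    have h5 : 16 * ε ≤ 1 - c := by rw [hε]; nlinarith
    nlinarith
  set F : E n → E n := fun x => (1 / ‖zr B j x‖) • zr B j x with hF
  have hFu : ∀ x ∈ P2, ‖F x‖ = 1 := by
    intro x hx
    have := hpos x hx
    rw [hF]
    simp only
    rw [norm_smul, Real.norm_of_nonneg (by positivity)]
    field_simp
  have hFi : ∀ x ∈ P2, ∀ y ∈ P2, x ≠ y → ⟪F x, F y⟫_ℝ ≤ 1 - (1 - c) * (1 - b / 2) / (1 - b) := by
    intro x hx y hy hxy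
    obtain ⟨h1, h2⟩ := key x hx y hy hxy
    have h3 := new_inner hc hc1 hb0 hb1 hε (norm_nonneg (zr B j x)) (norm_nonneg (zr B j y))
      (hub x hx) (hub y hy) h1 rfl h2
    have hx0 := hpos x hx
    have hy0 := hpos y hy
    rw [hF]
    simp only
    rw [inner_smul_left, inner_smul_right]
    simp only [conj_trivial]
    have e : 1 / ‖zr B j x‖ * (1 / ‖zr B j y‖ * ⟪zr B j x, zr B j y⟫_ℝ) =
        ⟪zr B j x, zr B j y⟫_ℝ / (‖zr B j x‖ * ‖zr B j y‖) := by field_simp
    rw [e, div_le_iff₀ (by positivity)]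
    exact h3
  have hlt : 1 - (1 - c) * (1 - b / 2) / (1 - b) < 1 := by
    have h1 : 0 < (1 - c) * (1 - b / 2) / (1 - b) :=
      div_pos (mul_pos h1c (by linarith)) (by linarith)
    linarith
  have hinj : Set.InjOn F P2 := by
    intro x hx y hy hxy
    by_contra hne'
    have h1 := hFi x hx y hy hne'
    rw [← hxy, real_inner_self_eq_norm_sq, hFu x hx] at h1
    linarith
  refine ⟨P2.image F, ?_, ?_, ?_⟩
  · intro u hu
    obtain ⟨x, hx, rfl⟩ := Finset.mem_image.1 hu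
    exact hFu x hx
  · intro u hu v hv huv
    obtain ⟨x, hx, rfl⟩ := Finset.mem_image.1 hu
    obtain ⟨y, hy, rfl⟩ := Finset.mem_image.1 hv
    exact hFi x hx y hy (fun h => huv (by rw [h]))
  · rw [Finset.card_image_of_injOn hinj]
    exact hcard

end Pool.Agent.U26.KP
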