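import Pool.Agent.Helper28.Haar

/-! Averaging over the orthogonal group (helper26). -/

set_option autoImplicit false

open MeasureTheory Metric Filter Pool.Agent.Helper28

namespace Pool.Agent.U26.KP

attribute [local instance] compactSpace_UG secondCountable_UG measUG borelUG

variable {E : Type*} [NormedAddCommGroup E] [InnerProductSpace ℝ E] [CompleteSpace E]
  [FiniteDimensional ℝ E] [MeasurableSpace E] [BorelSpace E]

theorem act_cont (x : E) : Continuous (fun Q : unitary (E →L[ℝ] E) => act Q x) := by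
  have e1 : Continuous (fun Q : unitary (E →L[ℝ] E) => (Q, x)) :=
    continuous_id.prodMk continuous_const
  have e2 := act_continuous.comp e1
  exact e2

/-- indicator -/
noncomputable def ind (A : Set E) (x : E) : ℝ := A.indicator (fun _ => (1 : ℝ)) x

theorem ind_int {A : Set E} (hA : MeasurableSet A) (x : E) :
    Integrable (fun Q => ind A (act Q x)) (Measure.haar : Measure (unitary (E →L[ℝ] E))) := by
  apply Integrable.of_bound (C := 1)
  · apply Measurable.aestronglyMeasurable
    unfold ind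
    exact (measurable_const.indicator hA).comp (act_cont x).measurable
  · filter_upwards with Q
    unfold ind
    by_cases h : act Q x ∈ A
    · rw [Set.indicator_of_mem h]; simp
    · rw [Set.indicator_of_notMem h]; simp

omit [MeasurableSpace E] [BorelSpace E] in
theorem haar_pos : 0 < (Measure.haar : Measure (unitary (E →L[ℝ] E))).real Set.univ := by
  rw [measureReal_def, ENNReal.toReal_pos_iff]
  exact ⟨Measure.measure_univ_pos.2 (NeZero.ne _), measure_lt_top _ _⟩

/-- **A popular value.** -/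
theorem popular {ι : Type*} [DecidableEq ι] {n : ℕ} (hn : Module.finrank ℝ E = n + 1) (T : E → ι)
    (hT : ∀ t, MeasurableSet {x | T x = t}) (𝓣 : Finset ι) (h𝓣 : ∀ x, T x ∈ 𝓣)
    (x0 : E) (hx0 : ‖x0‖ = 1) :
    ∃ t ∈ 𝓣, ∀ P : Finset E, (∀ x ∈ P, ‖x‖ = 1) → ∃ Q : unitary (E →L[ℝ] E),
      P.card ≤ 𝓣.card * (P.filter (fun x => T (act Q x) = t)).card := by
  classical
  set μ : Measure (unitary (E →L[ℝ] E)) := Measure.haar with hμ
  set M := μ.real Set.univ with hM
  have hM0 : 0 < M := haar_pos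
  have h1 : ∑ t ∈ 𝓣, ∫ Q, ind {x | T x = t} (act Q x0) ∂μ = M := by
    rw [← integral_finsetSum _ (fun t _ => ind_int (hT t) x0)]
    have : ∀ Q : unitary (E →L[ℝ] E), ∑ t ∈ 𝓣, ind {x | T x = t} (act Q x0) = 1 := by
      intro Q
      unfold ind
      simp only [Set.indicator_apply, Set.mem_ofPred_eq]
      rw [Finset.sum_ite_eq, if_pos (h𝓣 _)]
    simp only [this]
    rw [integral_const, smul_eq_mul, mul_one]
  obtain ⟨t, ht, hmax⟩ := Finset.exists_max_image 𝓣
    (fun t => ∫ Q, ind {x | T x = t} (act Q x0) ∂μ) ⟨_, h𝓣 x0⟩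
  set I := ∫ Q, ind {x | T x = t} (act Q x0) ∂μ with hI
  have h2 : M ≤ 𝓣.card * I := by
    calc M = ∑ t ∈ 𝓣, ∫ Q, ind {x | T x = t} (act Q x0) ∂μ := h1.symm
      _ ≤ ∑ _t' ∈ 𝓣, I := Finset.sum_le_sum hmax
      _ = _ := by rw [Finset.sum_const, nsmul_eq_mul]
  refine ⟨t, ht, fun P hP => ?_⟩
  by_contra hcon
  push Not at hcon
  have h3 : ∑ x ∈ P, ∫ Q, ind {x | T x = t} (act Q x) ∂μ = P.card * I := by
    rw [Finset.sum_congr rfl fun x hx => haar_const hn (ind {x | T x = t}) x x0 (hP x hx) hx0,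
      Finset.sum_const, nsmul_eq_mul]
  rw [← integral_finsetSum _ (fun x _ => ind_int (hT t) x)] at h3
  have h4 : ∀ Q : unitary (E →L[ℝ] E), ∑ x ∈ P, ind {x | T x = t} (act Q x) =
      ((P.filter (fun x => T (act Q x) = t)).card : ℝ) := by
    intro Q
    unfold ind
    simp only [Set.indicator_apply, Set.mem_ofPred_eq]
    rw [Finset.sum_boole]
  have h5 : ∀ Q : unitary (E →L[ℝ] E),
      (𝓣.card : ℝ) * ∑ x ∈ P, ind {x | T x = t} (act Q x) ≤ P.card - 1 := by
    intro Q
    rw [h4]
    have h6 : 𝓣.card * (P.filter (fun x => T (act Q x) = t)).card + 1 ≤ P.card := hcon Q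
    have h7 : ((𝓣.card * (P.filter (fun x => T (act Q x) = t)).card + 1 : ℕ) : ℝ) ≤ P.card := by
      exact_mod_cast h6
    push_cast at h7
    linarith
  have h6 : ∫ Q, (𝓣.card : ℝ) * ∑ x ∈ P, ind {x | T x = t} (act Q x) ∂μ ≤
      ∫ _Q, ((P.card : ℝ) - 1) ∂μ := by
    apply integral_mono _ (integrable_const _) h5
    exact (integrable_finsetSum _ (fun x _ => ind_int (hT t) x)).const_mul _
  rw [integral_const_mul, h3, integral_const, smul_eq_mul] at h6
  change _ ≤ M * _ at h6
  have h7 : (P.card : ℝ) * M ≤ P.card * (𝓣.card * I) :=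
    mul_le_mul_of_nonneg_left h2 (Nat.cast_nonneg _)
  nlinarith

end Pool.Agent.U26.KP
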