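import Pool.Agent.U26.KP.Gain
import Pool.Agent.U26.KP.Popular

/-! Popular types of unit vectors (helper26). -/

set_option autoImplicit false

open MeasureTheory Metric Filter Set Pool.Agent.H818R2 Pool.Agent.Helper28
open scoped InnerProductSpace Topology

namespace Pool.Agent.U26.KP

/-- the vector with the coordinates rounded down to multiples of `1 / r` (times `r`) -/
noncomputable def fl (r : ℕ) {n : ℕ} (x : E n) : Fin n → ℤ := fun i => ⌊(r : ℝ) * x i⌋

/-- the numbers of the coordinates with the rounded values `a - r`, `a ≤ 2 r` -/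
noncomputable def ty (r : ℕ) {n : ℕ} (x : E n) : Fin (2 * r + 1) → ℕ :=
  fun a => (Finset.univ.filter (fun i => fl r x i = (a : ℤ) - r)).card

theorem fl_meas (r n : ℕ) : Measurable (fl r : E n → (Fin n → ℤ)) := by
  apply measurable_pi_lambda
  intro i
  unfold fl
  apply Int.measurable_floor.comp
  apply Measurable.const_mul
  exact (EuclideanSpace.proj (𝕜 := ℝ) i : E n →L[ℝ] ℝ).continuous.measurable

theorem ty_meas (r n : ℕ) : Measurable (ty r : E n → (Fin (2 * r + 1) → ℕ)) := by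
  have h : (ty r : E n → (Fin (2 * r + 1) → ℕ)) =
      (fun (m : Fin n → ℤ) (a : Fin (2 * r + 1)) =>
        (Finset.univ.filter (fun i => m i = (a : ℤ) - r)).card) ∘ fl r := rfl
  rw [h]
  exact (measurable_of_countable _).comp (fl_meas r n)

/-- the possible types -/
def types (n r : ℕ) : Finset (Fin (2 * r + 1) → ℕ) :=
  Fintype.piFinset (fun _ => Finset.range (n + 1))

theorem types_card (n r : ℕ) : (types n r).card = (n + 1) ^ (2 * r + 1) := by
  unfold types
  rw [Fintype.card_piFinset, Finset.prod_const, Finset.card_range, Finset.card_univ,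
    Fintype.card_fin]

theorem ty_mem (n r : ℕ) (x : E n) : ty r x ∈ types n r := by
  unfold types
  rw [Fintype.mem_piFinset]
  intro a
  rw [Finset.mem_range, Nat.lt_succ_iff]
  calc ty r x a ≤ (Finset.univ : Finset (Fin n)).card :=
        Finset.card_le_card (Finset.filter_subset _ _)
    _ = n := by rw [Finset.card_univ, Fintype.card_fin]

theorem coord_le {n : ℕ} {x : E n} (hx : ‖x‖ = 1) (i : Fin n) : |x i| ≤ 1 := by
  rw [← hx, ← Real.norm_eq_abs]
  exact PiLp.norm_apply_le x i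

theorem fl_range {n r : ℕ} {x : E n} (hx : ‖x‖ = 1) (i : Fin n) :
    ∃ a : Fin (2 * r + 1), fl r x i = (a : ℤ) - r := by
  have h1 := abs_le.1 (coord_le hx i)
  have hr : (0 : ℝ) ≤ r := Nat.cast_nonneg r
  have h2 : -(r : ℤ) ≤ fl r x i := by
    unfold fl
    rw [Int.le_floor]
    push_cast
    nlinarith
  have h3 : fl r x i ≤ r := by
    have : (fl r x i : ℝ) ≤ r := by
      unfold fl
      refine (Int.floor_le _).trans ?_
      nlinarith
    exact_mod_cast this
  refine ⟨⟨(fl r x i + r).toNat, by omega⟩, ?_⟩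
  simp only
  omega

/-- unit vectors of the same type are close up to a permutation -/
theorem perm_of_ty {n r : ℕ} (hr : 0 < r) {x y : E n} (hx : ‖x‖ = 1) (hy : ‖y‖ = 1)
    (h : ty r x = ty r y) :
    ∃ σ : Equiv.Perm (Fin n), ∀ i, |x i - y (σ i)| ≤ 1 / r := by
  classical
  have hr0 : (0 : ℝ) < r := by exact_mod_cast hr
  have h1 : ∀ a : ℤ, Fintype.card {i // fl r x i = a} = Fintype.card {i // fl r y i = a} := by
    intro a
    rw [Fintype.card_subtype, Fintype.card_subtype]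
    by_cases ha : ∃ b : Fin (2 * r + 1), a = (b : ℤ) - r
    · obtain ⟨b, rfl⟩ := ha
      exact congrFun h b
    · rw [Finset.filter_false_of_mem, Finset.filter_false_of_mem]
      · intro i _ hi
        obtain ⟨b, hb⟩ := fl_range (r := r) hy i
        exact ha ⟨b, hi.symm.trans hb⟩
      · intro i _ hi
        obtain ⟨b, hb⟩ := fl_range (r := r) hx i
        exact ha ⟨b, hi.symm.trans hb⟩
  let e : Fin n ≃ Fin n := (Equiv.sigmaFiberEquiv (fl r x)).symm.trans
    ((Equiv.sigmaCongrRight fun a => Fintype.equivOfCardEq (h1 a)).trans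
      (Equiv.sigmaFiberEquiv (fl r y)))
  have he : ∀ i, fl r y (e i) = fl r x i := by
    intro i
    change fl r y ((Equiv.sigmaFiberEquiv (fl r y)) _) = fl r x i
    have h2 : ∀ x : Σ a, {i // fl r y i = a}, fl r y ((Equiv.sigmaFiberEquiv (fl r y)) x) = x.1 :=
      fun x => x.2.2
    rw [h2]
    rfl
  refine ⟨e, fun i => ?_⟩
  have h2 := he i
  unfold fl at h2
  have h3 := Int.floor_le ((r : ℝ) * x i)
  have h4 := Int.lt_floor_add_one ((r : ℝ) * x i)
  have h5 := Int.floor_le ((r : ℝ) * y (e i))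
  have h6 := Int.lt_floor_add_one ((r : ℝ) * y (e i))
  rw [h2] at h5 h6
  have h7 : |(r : ℝ) * (x i - y (e i))| ≤ 1 := by
    rw [abs_le]
    constructor <;> linarith
  rw [abs_mul, abs_of_pos hr0] at h7
  rw [le_div_iff₀ hr0]
  linarith

/-- **A popular type.** -/
theorem popular_type {n : ℕ} (hn : 0 < n) (r : ℕ) :
    ∃ t ∈ types n r, ∀ P : Finset (E n), (∀ x ∈ P, ‖x‖ = 1) →
      ∃ Q : unitary (E n →L[ℝ] E n),
        P.card ≤ (n + 1) ^ (2 * r + 1) * (P.filter (fun x => ty r (act Q x) = t)).card := by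
  have hfr : Module.finrank ℝ (E n) = (n - 1) + 1 := by
    rw [finrank_euclideanSpace_fin]; omega
  obtain ⟨x0, hx0⟩ : ∃ x : E n, ‖x‖ = 1 := ⟨EuclideanSpace.single ⟨0, hn⟩ 1, by
    rw [EuclideanSpace.single, PiLp.norm_single, norm_one]⟩
  have h := popular hfr (ty r) (fun t => ty_meas r n (measurableSet_singleton t)) (types n r)
    (ty_mem n r) x0 hx0
  rw [types_card] at h
  exact h

/-- the vector with permuted coordinates -/
noncomputable def pm {n : ℕ} (g : E n) (σ : Equiv.Perm (Fin n)) : E n :=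
  WithLp.toLp 2 (fun i => g (σ i))

theorem pm_norm {n : ℕ} (g : E n) (σ : Equiv.Perm (Fin n)) : ‖pm g σ‖ = ‖g‖ := by
  rw [EuclideanSpace.norm_eq, EuclideanSpace.norm_eq]
  congr 1
  exact Equiv.sum_comp σ (fun i => ‖g i‖ ^ 2)

theorem dist_le_of_coord {n : ℕ} {h : ℝ} {x y : E n} (h0 : 0 ≤ h)
    (hx : ∀ i, |x i - y i| ≤ h) : ‖x - y‖ ≤ √n * h := by
  have e : √n * h = √(n * h ^ 2) := by
    rw [Real.sqrt_mul (Nat.cast_nonneg n), Real.sqrt_sq h0]
  rw [EuclideanSpace.norm_eq, e]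
  apply Real.sqrt_le_sqrt
  calc ∑ i, ‖(x - y) i‖ ^ 2 ≤ ∑ _i : Fin n, h ^ 2 := by
        apply Finset.sum_le_sum
        intro i _
        rw [Real.norm_eq_abs, PiLp.sub_apply]
        exact pow_le_pow_left₀ (abs_nonneg _) (hx i) 2
    _ = n * h ^ 2 := by rw [Finset.sum_const, Finset.card_univ, Fintype.card_fin, nsmul_eq_mul]

/-- **Codes in a single orbit.** -/
theorem exists_orbit {n : ℕ} (hn : 0 < n) (r : ℕ) (hr : 0 < r) :
    ∃ g : E n, ‖g‖ = 1 ∧ ∀ (c : ℝ) (P : Finset (E n)), c + 2 * (√n / r) < 1 →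
      (∀ x ∈ P, ‖x‖ = 1) → (∀ x ∈ P, ∀ y ∈ P, x ≠ y → ⟪x, y⟫_ℝ ≤ c) →
      ∃ C : Finset (E n), (∀ x ∈ C, ∃ σ : Equiv.Perm (Fin n), x = pm g σ) ∧
        (∀ x ∈ C, ∀ y ∈ C, x ≠ y → ⟪x, y⟫_ℝ ≤ c + 2 * (√n / r)) ∧
        P.card ≤ (n + 1) ^ (2 * r + 1) * C.card := by
  classical
  obtain ⟨t, -, ht⟩ := popular_type hn r
  obtain ⟨x0, hx0⟩ : ∃ x : E n, ‖x‖ = 1 := ⟨EuclideanSpace.single ⟨0, hn⟩ 1, by
    rw [EuclideanSpace.single, PiLp.norm_single, norm_one]⟩
  obtain ⟨g, hg1, hg2⟩ : ∃ g : E n, ‖g‖ = 1 ∧ ∀ x : E n, ‖x‖ = 1 → ty r x = t → ty r g = t := by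
    by_cases h : ∃ g : E n, ‖g‖ = 1 ∧ ty r g = t
    · obtain ⟨g, h1, h2⟩ := h
      exact ⟨g, h1, fun _ _ _ => h2⟩
    · exact ⟨x0, hx0, fun x hx hxt => absurd ⟨x, hx, hxt⟩ h⟩
  refine ⟨g, hg1, fun c P hc hP hP2 => ?_⟩
  obtain ⟨Q, hQ⟩ := ht P hP
  set P' := P.filter (fun x => ty r (act Q x) = t) with hP'
  have hσ : ∀ x : E n, ∃ σ : Equiv.Perm (Fin n), x ∈ P' → ‖act Q x - pm g σ‖ ≤ √n / r := by
    intro x
    by_cases hx : x ∈ P'
    · obtain ⟨h1, h2⟩ := Finset.mem_filter.1 hx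
      have h3 : ‖act Q x‖ = 1 := by rw [act_norm, hP x h1]
      obtain ⟨σ, hσ⟩ := perm_of_ty hr h3 hg1 (h2.trans (hg2 _ h3 h2).symm)
      refine ⟨σ, fun _ => ?_⟩
      have := dist_le_of_coord (x := act Q x) (y := pm g σ) (h := 1 / r) (by positivity)
        (fun i => hσ i)
      calc ‖act Q x - pm g σ‖ ≤ √n * (1 / r) := this
        _ = _ := by ring
    · exact ⟨1, fun h => absurd h hx⟩
  choose f hf using hσ
  have hin : ∀ x ∈ P', ∀ y ∈ P', x ≠ y → ⟪pm g (f x), pm g (f y)⟫_ℝ ≤ c + 2 * (√n / r) := by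
    intro x hx y hy hxy
    have h1 := hP2 x (Finset.mem_filter.1 hx).1 y (Finset.mem_filter.1 hy).1 hxy
    rw [← act_inner Q x y] at h1
    have h2 := hf x hx
    have h3 := hf y hy
    have e : ⟪pm g (f x), pm g (f y)⟫_ℝ = ⟪act Q x, act Q y⟫_ℝ - ⟪act Q x - pm g (f x), act Q y⟫_ℝ -
        ⟪pm g (f x), act Q y - pm g (f y)⟫_ℝ := by
      rw [inner_sub_left, inner_sub_right]; ring
    have h4 := abs_le.1 (abs_real_inner_le_norm (act Q x - pm g (f x)) (act Q y))
    have h5 := abs_le.1 (abs_real_inner_le_norm (pm g (f x)) (act Q y - pm g (f y)))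
    rw [act_norm, hP y (Finset.mem_filter.1 hy).1, mul_one] at h4
    rw [pm_norm, hg1, one_mul] at h5
    rw [e]
    linarith [h4.1, h5.1]
  have hinj : Set.InjOn (fun x => pm g (f x)) P' := by
    intro x hx y hy hxy
    by_contra hne
    have h1 := hin x hx y hy hne
    simp only at hxy
    rw [← hxy, real_inner_self_eq_norm_sq, pm_norm, hg1] at h1
    linarith
  refine ⟨P'.image (fun x => pm g (f x)), ?_, ?_, ?_⟩
  · intro u hu
    obtain ⟨x, -, rfl⟩ := Finset.mem_image.1 hu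
    exact ⟨f x, rfl⟩
  · intro u hu v hv huv
    obtain ⟨x, hx, rfl⟩ := Finset.mem_image.1 hu
    obtain ⟨y, hy, rfl⟩ := Finset.mem_image.1 hv
    exact hin x hx y hy (fun h => huv (by rw [h]))
  · rw [Finset.card_image_of_injOn hinj]
    exact hQ

end Pool.Agent.U26.KP
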