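import Pool.Agent.U26.KP.Orbit
import Pool.Agent.U26.SP.Limits

/-! Exponents of permutation codes on the sphere (helper26). -/

set_option autoImplicit false

open MeasureTheory Metric Filter Set Pool.Agent.H818R2
open scoped InnerProductSpace Topology

namespace Pool.Agent.U26.KP

/-- The largest size of a spherical code with angular distance at least `θ` all whose points are
obtained from the vector `g` by permutations of the coordinates. -/
noncomputable def orbMax {n : ℕ} (g : EuclideanSpace ℝ (Fin n)) (θ : ℝ) : ℕ :=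
  sSup {m | ∃ C : Finset (EuclideanSpace ℝ (Fin n)), IsSphCode n θ C ∧
    (∀ x ∈ C, ∃ σ : Equiv.Perm (Fin n), ∀ i, x i = g (σ i)) ∧ C.card = m}

theorem orb_bdd {n : ℕ} [NeZero n] (g : E n) {θ : ℝ} (hs : 0 < Real.sin (θ / 2)) :
    BddAbove {m | ∃ C : Finset (E n), IsSphCode n θ C ∧
      (∀ x ∈ C, ∃ σ : Equiv.Perm (Fin n), ∀ i, x i = g (σ i)) ∧ C.card = m} :=
  (sph_bdd (d := n) hs).mono (by rintro m ⟨C, h1, -, h2⟩; exact ⟨C, h1, h2⟩)

theorem orbMax_le {n : ℕ} [NeZero n] (g : E n) {θ : ℝ} (hs : 0 < Real.sin (θ / 2)) :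
    orbMax g θ ≤ sphMax n θ := by
  unfold orbMax
  refine csSup_le ⟨0, ∅, ⟨by simp, by simp⟩, by simp, rfl⟩ ?_
  rintro m ⟨C, h1, -, rfl⟩
  exact le_sphMax hs h1

theorem orbMax_pos {n : ℕ} [NeZero n] (g : E n) (hg : ‖g‖ = 1) {θ : ℝ}
    (hs : 0 < Real.sin (θ / 2)) : 0 < orbMax g θ := by
  have : ({g} : Finset (E n)).card ≤ orbMax g θ := by
    refine le_csSup (orb_bdd g hs) ⟨{g}, ⟨?_, ?_⟩, ?_, rfl⟩
    · intro x hx; rw [Finset.mem_singleton.1 hx]; exact hg
    · intro x hx y hy hxy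
      exact absurd ((Finset.mem_singleton.1 hx).trans (Finset.mem_singleton.1 hy).symm) hxy
    · intro x hx
      exact ⟨1, fun i => by rw [Finset.mem_singleton.1 hx]; rfl⟩
  rw [Finset.card_singleton] at this
  exact this

/-- the resolution -/
noncomputable def rr (n : ℕ) : ℕ := ⌈(n : ℝ) ^ (5 / 8 : ℝ)⌉₊

theorem rr_pos {n : ℕ} (hn : 0 < n) : 0 < rr n := by
  unfold rr
  rw [Nat.ceil_pos]
  have : (0 : ℝ) < n := by exact_mod_cast hn
  positivity

/-- the vectors -/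
theorem exists_g (n : ℕ) : ∃ g : E n, 0 < n → ‖g‖ = 1 ∧
    ∀ (c : ℝ) (P : Finset (E n)), c + 2 * (√n / rr n) < 1 →
      (∀ x ∈ P, ‖x‖ = 1) → (∀ x ∈ P, ∀ y ∈ P, x ≠ y → ⟪x, y⟫_ℝ ≤ c) →
      ∃ C : Finset (E n), (∀ x ∈ C, ∃ σ : Equiv.Perm (Fin n), x = pm g σ) ∧
        (∀ x ∈ C, ∀ y ∈ C, x ≠ y → ⟪x, y⟫_ℝ ≤ c + 2 * (√n / rr n)) ∧
        P.card ≤ (n + 1) ^ (2 * rr n + 1) * C.card := by
  rcases Nat.eq_zero_or_pos n with rfl | hn
  · exact ⟨0, fun h => absurd h (lt_irrefl _)⟩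
  · obtain ⟨g, hg⟩ := exists_orbit hn (rr n) (rr_pos hn)
    exact ⟨g, fun _ => hg⟩

/-- the vectors -/
noncomputable def gv (n : ℕ) : E n := (exists_g n).choose

theorem gv_norm {n : ℕ} (hn : 0 < n) : ‖gv n‖ = 1 := ((exists_g n).choose_spec hn).1

/-- the constant in the angle gain -/
noncomputable def KK (θ : ℝ) (B : ℕ) : ℝ := 2 / ((1 - Real.cos θ) * (1 / (B : ℝ)) / 8) + 1

theorem main_ineq {n : ℕ} [NeZero n] {θ : ℝ} (hs : 0 < Real.sin (θ / 2)) {B : ℕ} (hB : 2 ≤ B)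
    (hr : 2 * (√n / rr n) ≤ (1 - Real.cos θ) * (1 / (B : ℝ)) / 2) :
    (sphMax n θ : ℝ) ≤ B * KK θ B ^ (n / B + 1) *
      ((n + 1) ^ (2 * rr n + 1) * orbMax (gv n) θ) := by
  have hn : 0 < n := Nat.pos_of_ne_zero (NeZero.ne n)
  have hc : Real.cos θ < 1 := by rw [cos_eq]; nlinarith
  have hB0 : (0 : ℝ) < B := by exact_mod_cast (by omega : 0 < B)
  have hB2 : (2 : ℝ) ≤ B := by exact_mod_cast hB
  set c := Real.cos θ with hcdef
  set b : ℝ := 1 / B with hb
  have hb0 : 0 < b := by positivity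
  have hb1 : b ≤ 1 / 2 := by rw [hb]; exact one_div_le_one_div_of_le (by norm_num) hB2
  have h1c : 0 < 1 - c := by linarith
  obtain ⟨P, hP, hPc⟩ := Nat.sSup_mem (sph_nonempty n θ) (sph_bdd hs)
  change P.card = sphMax n θ at hPc
  obtain ⟨Q, hQ1, hQ2, hQc⟩ := gain hB hc (Real.neg_one_le_cos θ) P hP.1 hP.2
  have hcb : 1 - (1 - c) * (1 - b / 2) / (1 - b) ≤ c - (1 - c) * b / 2 := by
    have h1 : (1 - c) * (1 + b / 2) ≤ (1 - c) * (1 - b / 2) / (1 - b) := by
      rw [le_div_iff₀ (by linarith), mul_assoc]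
      apply mul_le_mul_of_nonneg_left _ h1c.le
      nlinarith
    linarith
  obtain ⟨C, hC1, hC2, hCc⟩ := ((exists_g n).choose_spec hn).2 _ Q (by
    linarith : 1 - (1 - c) * (1 - b / 2) / (1 - b) + 2 * (√n / rr n) < 1) hQ1 hQ2
  have hC : C.card ≤ orbMax (gv n) θ := by
    refine le_csSup (orb_bdd (gv n) hs) ⟨C, ⟨?_, ?_⟩, ?_, rfl⟩
    · intro x hx
      obtain ⟨σ, rfl⟩ := hC1 x hx
      rw [pm_norm]
      exact gv_norm hn
    · intro x hx y hy hxy
      refine (hC2 x hx y hy hxy).trans ?_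
      linarith
    · intro x hx
      obtain ⟨σ, rfl⟩ := hC1 x hx
      exact ⟨σ, fun _ => rfl⟩
  have h2 : (Q.card : ℝ) ≤ (n + 1) ^ (2 * rr n + 1) * orbMax (gv n) θ := by
    calc (Q.card : ℝ) ≤ (n + 1) ^ (2 * rr n + 1) * C.card := by exact_mod_cast hCc
      _ ≤ _ := by
          apply mul_le_mul_of_nonneg_left _ (by positivity)
          exact_mod_cast hC
  rw [← hPc]
  refine hQc.trans ?_
  unfold KK
  exact mul_le_mul_of_nonneg_left h2 (by positivity)

theorem rr_bounds {n : ℕ} (hn : 0 < n) :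
    √n / rr n ≤ (n : ℝ) ^ (-(1 / 8) : ℝ) ∧ (rr n : ℝ) ≤ (n : ℝ) ^ (5 / 8 : ℝ) + 1 := by
  have hn0 : (0 : ℝ) < n := by exact_mod_cast hn
  have h1 : (n : ℝ) ^ (5 / 8 : ℝ) ≤ rr n := Nat.le_ceil _
  have h2 : (0 : ℝ) < (n : ℝ) ^ (5 / 8 : ℝ) := by positivity
  constructor
  · rw [div_le_iff₀ (by linarith)]
    calc √n = (n : ℝ) ^ (-(1 / 8) : ℝ) * (n : ℝ) ^ (5 / 8 : ℝ) := by
          rw [← Real.rpow_add hn0, Real.sqrt_eq_rpow]; norm_num
      _ ≤ _ := mul_le_mul_of_nonneg_left h1 (by positivity)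
  · exact (Nat.ceil_lt_add_one h2.le).le

theorem small1 : Tendsto (fun n : ℕ => √n / rr n) atTop (𝓝 0) := by
  have h1 : Tendsto (fun n : ℕ => (n : ℝ) ^ (-(1 / 8) : ℝ)) atTop (𝓝 0) :=
    (tendsto_rpow_neg_atTop (by norm_num : (0 : ℝ) < 1 / 8)).comp tendsto_natCast_atTop_atTop
  refine squeeze_zero' ?_ ?_ h1
  · filter_upwards with n; positivity
  · filter_upwards [eventually_gt_atTop 0] with n hn
    exact (rr_bounds hn).1

theorem small2 : Tendsto (fun n : ℕ => (2 * rr n + 1 : ℝ) * Real.log (n + 1) / n) atTop (𝓝 0) := by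
  have h1 : Tendsto (fun x : ℝ => Real.log x / x ^ (3 / 8 : ℝ)) atTop (𝓝 0) :=
    (isLittleO_log_rpow_atTop (by norm_num : (0 : ℝ) < 3 / 8)).tendsto_div_nhds_zero
  have h2 : Tendsto (fun n : ℕ => (n : ℝ) + 1) atTop atTop :=
    tendsto_atTop_add_const_right _ _ tendsto_natCast_atTop_atTop
  have h3 := (h1.comp h2).const_mul 10
  rw [mul_zero] at h3
  refine squeeze_zero' ?_ ?_ h3
  · filter_upwards [eventually_gt_atTop 0] with n hn
    have := Pool.Agent.U26.SP.log_pos' hn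
    positivity
  · filter_upwards [eventually_gt_atTop 0] with n hn
    have hn0 : (1 : ℝ) ≤ n := by exact_mod_cast hn
    have hl := Pool.Agent.U26.SP.log_pos' hn
    simp only [Function.comp]
    have h5 := (rr_bounds hn).2
    have h6 : (1 : ℝ) ≤ (n : ℝ) ^ (5 / 8 : ℝ) := Real.one_le_rpow hn0 (by norm_num)
    have h7 : (2 * rr n + 1 : ℝ) ≤ 5 * (n : ℝ) ^ (5 / 8 : ℝ) := by linarith
    have h8 : ((n : ℝ) + 1) ^ (3 / 8 : ℝ) ≤ 2 * (n : ℝ) ^ (3 / 8 : ℝ) := by
      calc ((n : ℝ) + 1) ^ (3 / 8 : ℝ) ≤ (2 * (n : ℝ)) ^ (3 / 8 : ℝ) :=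
            Real.rpow_le_rpow (by positivity) (by linarith) (by norm_num)
        _ = 2 ^ (3 / 8 : ℝ) * (n : ℝ) ^ (3 / 8 : ℝ) :=
            Real.mul_rpow (by norm_num) (by linarith)
        _ ≤ 2 ^ (1 : ℝ) * (n : ℝ) ^ (3 / 8 : ℝ) := by
            apply mul_le_mul_of_nonneg_right _ (by positivity)
            exact Real.rpow_le_rpow_of_exponent_le (by norm_num) (by norm_num)
        _ = _ := by rw [Real.rpow_one]
    have h9 : (0 : ℝ) < (n : ℝ) ^ (3 / 8 : ℝ) := by positivity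
    have h10 : (0 : ℝ) < ((n : ℝ) + 1) ^ (3 / 8 : ℝ) := by positivity
    have h11 : (n : ℝ) = (n : ℝ) ^ (5 / 8 : ℝ) * (n : ℝ) ^ (3 / 8 : ℝ) := by
      rw [← Real.rpow_add (by linarith)]; norm_num
    rw [← mul_div_assoc, div_le_div_iff₀ (by linarith) h10]
    generalize Real.log (n + 1) = l at *
    calc (2 * rr n + 1 : ℝ) * l * ((n : ℝ) + 1) ^ (3 / 8 : ℝ)
        ≤ (5 * (n : ℝ) ^ (5 / 8 : ℝ)) * l * (2 * (n : ℝ) ^ (3 / 8 : ℝ)) := by
          apply mul_le_mul _ h8 h10.le (by positivity)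
          exact mul_le_mul_of_nonneg_right h7 hl.le
      _ = 10 * l * ((n : ℝ) ^ (5 / 8 : ℝ) * (n : ℝ) ^ (3 / 8 : ℝ)) := by ring
      _ = 10 * l * n := by rw [← h11]

theorem KK_small {θ : ℝ} (hc : Real.cos θ < 1) :
    Tendsto (fun B : ℕ => Real.log (KK θ B) / B) atTop (𝓝 0) := by
  set a : ℝ := 16 / (1 - Real.cos θ) with ha
  have h1c : 0 < 1 - Real.cos θ := by linarith
  have ha0 : 0 < a := by positivity
  have h1 : Tendsto (fun x : ℝ => Real.log x / x) atTop (𝓝 0) := by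
    simpa using Real.tendsto_pow_log_div_mul_add_atTop 1 0 1 one_ne_zero
  have h2 : Tendsto (fun B : ℕ => a * (B : ℝ) + 1) atTop atTop :=
    tendsto_atTop_add_const_right _ _ (tendsto_natCast_atTop_atTop.const_mul_atTop ha0)
  have h3 := (h1.comp h2).const_mul (a + 1)
  rw [mul_zero] at h3
  have hK : ∀ B : ℕ, 0 < B → KK θ B = a * B + 1 := by
    intro B hB
    have : (0 : ℝ) < B := by exact_mod_cast hB
    unfold KK
    rw [ha]
    field_simp
    ring
  refine squeeze_zero' ?_ ?_ h3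
  · filter_upwards [eventually_gt_atTop 0] with B hB
    rw [hK B hB]
    apply div_nonneg (Real.log_nonneg _) (Nat.cast_nonneg B)
    have : (0 : ℝ) ≤ a * B := by positivity
    linarith
  · filter_upwards [eventually_gt_atTop 0] with B hB
    have hB1 : (1 : ℝ) ≤ B := by exact_mod_cast hB
    rw [hK B hB]
    simp only [Function.comp]
    have h5 : 0 < a * B + 1 := by positivity
    have h6 : 0 ≤ Real.log (a * B + 1) := Real.log_nonneg (by
      have : (0 : ℝ) ≤ a * B := by positivity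
      linarith)
    rw [← mul_div_assoc, div_le_div_iff₀ (by linarith) h5]
    have h7 : a * B + 1 ≤ (a + 1) * B := by nlinarith
    nlinarith

/-- **Permutation codes reach the exponents of spherical codes.** -/
theorem orb_tendsto {θ : ℝ} (h0 : 0 < θ) (h1 : θ < Real.pi) :
    Tendsto (fun n : ℕ => Real.logb 2 (orbMax (gv n) θ) / n - codeRate θ n) atTop (𝓝 0) := by
  have hs : 0 < Real.sin (θ / 2) := Real.sin_pos_of_pos_of_lt_pi (by linarith) (by linarith)
  have hc : Real.cos θ < 1 := by rw [cos_eq]; nlinarith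
  have hl2 : 0 < Real.log 2 := Real.log_pos (by norm_num)
  rw [Metric.tendsto_atTop']
  intro δ hδ
  obtain ⟨B, hB1, hB2⟩ := (((KK_small hc).eventually (gt_mem_nhds
    (show (0 : ℝ) < δ * Real.log 2 / 2 by positivity))).and (eventually_ge_atTop 2)).exists
  have hB0 : (0 : ℝ) < B := by exact_mod_cast (by omega : 0 < B)
  have hK1 : 1 ≤ KK θ B := by
    unfold KK
    have : 0 < 2 / ((1 - Real.cos θ) * (1 / (B : ℝ)) / 8) := by
      have : 0 < 1 - Real.cos θ := by linarith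
      positivity
    linarith
  have hK0 : 0 < KK θ B := by linarith
  have hLK : 0 ≤ Real.log (KK θ B) := Real.log_nonneg hK1
  -- the small terms
  have h3 : Tendsto (fun n : ℕ => (Real.log B + Real.log (KK θ B)) / (n : ℝ) +
      (2 * rr n + 1 : ℝ) * Real.log (n + 1) / n) atTop (𝓝 0) := by
    have := ((tendsto_const_nhds (x := Real.log B + Real.log (KK θ B))).div_atTop
      tendsto_natCast_atTop_atTop).add small2
    rwa [add_zero] at this
  have h4 := small1.const_mul 2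
  rw [mul_zero] at h4
  have h5 : 0 < (1 - Real.cos θ) * (1 / (B : ℝ)) / 2 := by
    have : 0 < 1 - Real.cos θ := by linarith
    positivity
  obtain ⟨N, hN⟩ := eventually_atTop.1 ((h3.eventually (gt_mem_nhds
    (show (0 : ℝ) < δ * Real.log 2 / 2 by positivity))).and (h4.eventually (gt_mem_nhds h5)))
  refine ⟨N, fun n hn => ?_⟩
  have hn0 : 0 < n := by omega
  have hn0' : (0 : ℝ) < n := by exact_mod_cast hn0
  have : NeZero n := ⟨hn0.ne'⟩
  obtain ⟨h6, h7⟩ := hN n (le_of_lt hn)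
  have h8 := main_ineq (n := n) hs hB2 h7.le
  have h9 := orbMax_le (gv n) (n := n) hs
  have h10 := orbMax_pos (gv n) (gv_norm hn0) hs
  have hO : (0 : ℝ) < orbMax (gv n) θ := by exact_mod_cast h10
  have hA : (0 : ℝ) < sphMax n θ := by
    have : (orbMax (gv n) θ : ℝ) ≤ sphMax n θ := by exact_mod_cast h9
    linarith
  have h11 := Real.log_le_log hA h8
  rw [Real.log_mul (by positivity) (by positivity), Real.log_mul (by positivity) (by positivity),
    Real.log_mul (by positivity) hO.ne', Real.log_pow, Real.log_pow] at h11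
  push_cast at h11
  have h12 : Real.log (orbMax (gv n) θ) ≤ Real.log (sphMax n θ) :=
    Real.log_le_log hO (by exact_mod_cast h9)
  have h13 : ((n / B : ℕ) : ℝ) ≤ n / B := Nat.cast_div_le
  have h14 : (((n / B : ℕ) : ℝ) + 1) * Real.log (KK θ B) ≤
      n * (Real.log (KK θ B) / B) + Real.log (KK θ B) := by
    have : (((n / B : ℕ) : ℝ) + 1) * Real.log (KK θ B) ≤ ((n : ℝ) / B + 1) * Real.log (KK θ B) :=
      mul_le_mul_of_nonneg_right (by linarith) hLK
    refine this.trans (le_of_eq ?_)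
    ring
  have h15 : Real.log (sphMax n θ) - Real.log (orbMax (gv n) θ) < n * (δ * Real.log 2) := by
    have h16 : (Real.log B + Real.log (KK θ B)) / (n : ℝ) +
        (2 * rr n + 1 : ℝ) * Real.log (n + 1) / n =
        (Real.log B + Real.log (KK θ B) + (2 * rr n + 1 : ℝ) * Real.log (n + 1)) / n := by ring
    rw [h16, div_lt_iff₀ hn0'] at h6
    have h17 : n * (Real.log (KK θ B) / B) ≤ n * (δ * Real.log 2 / 2) :=
      mul_le_mul_of_nonneg_left hB1.le hn0'.le
    linarith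
  have e : Real.logb 2 (orbMax (gv n) θ) / n - codeRate θ n =
      -((Real.log (sphMax n θ) - Real.log (orbMax (gv n) θ)) / (n * Real.log 2)) := by
    unfold codeRate Real.logb
    field_simp
    ring
  rw [Real.dist_eq, sub_zero, e, abs_neg, abs_of_nonneg (div_nonneg (by linarith) (by positivity)),
    div_lt_iff₀ (by positivity)]
  linarith

end Pool.Agent.U26.KP
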